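import Pool.Agent.helper97.BG.SigDefs

/-!
# Cluster monomials of type `A₂` are linearly independent
-/

set_option maxHeartbeats 4000000

namespace Pool.Agent.helper97.BG

open Module

namespace CL

open MvPolynomial

theorem indep_of_degree {σ k ι : Type*} [Field k] (m : MonomialOrder σ)
    (P : ι → MvPolynomial σ k) (h0 : ∀ i, P i ≠ 0)
    (hinj : ∀ i j, m.degree (P i) = m.degree (P j) → i = j)
    (S : Finset ι) (a : ι → k) (h : ∑ i ∈ S, C (a i) * P i = 0) : ∀ i ∈ S, a i = 0 := by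
  classical
  by_contra hcon
  push Not at hcon
  obtain ⟨i₀, hi₀, hai₀⟩ := hcon
  have hne : (S.filter (fun i => a i ≠ 0)).Nonempty :=
    ⟨i₀, Finset.mem_filter.2 ⟨hi₀, hai₀⟩⟩
  obtain ⟨i, hi, hmax⟩ := Finset.exists_max_image _ (fun i => m.toSyn (m.degree (P i))) hne
  rw [Finset.mem_filter] at hi
  have h1 := congrArg (coeff (m.degree (P i))) h
  rw [coeff_sum, coeff_zero, Finset.sum_eq_single i] at h1
  · rw [coeff_C_mul] at h1
    rcases mul_eq_zero.1 h1 with h2 | h2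
    · exact hi.2 h2
    · exact m.leadingCoeff_ne_zero_iff.2 (h0 i) h2
  · intro j hj hji
    rw [coeff_C_mul]
    by_cases haj : a j = 0
    · rw [haj, zero_mul]
    · rw [m.coeff_eq_zero_of_lt, mul_zero]
      have h3 := hmax j (Finset.mem_filter.2 ⟨hj, haj⟩)
      refine lt_of_le_of_ne h3 ?_
      intro h4
      exact hji (hinj _ _ (m.toSyn.injective h4))
  · intro h3
    exact absurd hi.1 h3

theorem degree_one_sub {σ k : Type*} [Field k] (m : MonomialOrder σ) (s : σ →₀ ℕ) (hs : s ≠ 0) :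
    m.degree (1 - monomial s (1 : k)) = s := by
  classical
  rw [← neg_sub, m.degree_neg, m.degree_sub_of_lt]
  · rw [m.degree_monomial, if_neg one_ne_zero]
  · rw [m.degree_one, m.degree_monomial, if_neg one_ne_zero, map_zero,
      MonomialOrder.toSyn_lt_iff_ne_zero]
    intro h
    exact hs ((m.toSyn_eq_zero_iff s).1 h)

theorem one_sub_ne {σ k : Type*} [Field k] (s : σ →₀ ℕ) (hs : s ≠ 0) :
    (1 - monomial s (1 : k) : MvPolynomial σ k) ≠ 0 := by
  classical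
  intro h
  have h1 := congrArg (coeff s) h
  rw [coeff_sub, coeff_monomial, if_pos rfl, coeff_zero, coeff_one, if_neg (Ne.symm hs)] at h1
  simp at h1

/-- The numerators of the cluster monomials. -/
noncomputable def num (k : Type*) [Field k] (N : ℕ) (q : Fin 5 → ℕ) : MvPolynomial (Fin 2) k :=
  X 0 ^ q 0 * X 1 ^ q 1 * (1 - monomial (Finsupp.single 0 1) 1) ^ q 2 *
    (1 - monomial (Finsupp.single 1 1) 1) ^ q 4 *
    (1 - monomial (Finsupp.single 0 1 + Finsupp.single 1 1) 1) ^ (q 3 + (N - q 2 - q 4))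

theorem s0 : (Finsupp.single (0 : Fin 2) 1 : Fin 2 →₀ ℕ) ≠ 0 := by
  intro h
  have := DFunLike.congr_fun h 0
  simp at this

theorem s1 : (Finsupp.single (1 : Fin 2) 1 : Fin 2 →₀ ℕ) ≠ 0 := by
  intro h
  have := DFunLike.congr_fun h 1
  simp at this

theorem s2 : (Finsupp.single (0 : Fin 2) 1 + Finsupp.single (1 : Fin 2) 1 : Fin 2 →₀ ℕ) ≠ 0 := by
  intro h
  have := DFunLike.congr_fun h 0
  simp at this

theorem num_ne (k : Type*) [Field k] (N : ℕ) (q : Fin 5 → ℕ) : num k N q ≠ 0 := by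
  unfold num
  refine mul_ne_zero (mul_ne_zero (mul_ne_zero (mul_ne_zero ?_ ?_) ?_) ?_) ?_
  · exact pow_ne_zero _ (X_ne_zero _)
  · exact pow_ne_zero _ (X_ne_zero _)
  · exact pow_ne_zero _ (one_sub_ne _ s0)
  · exact pow_ne_zero _ (one_sub_ne _ s1)
  · exact pow_ne_zero _ (one_sub_ne _ s2)

theorem num_degree (k : Type*) [Field k] (m : MonomialOrder (Fin 2)) (N : ℕ) (q : Fin 5 → ℕ) :
    m.degree (num k N q) 0 = q 0 + q 2 + (q 3 + (N - q 2 - q 4)) ∧
    m.degree (num k N q) 1 = q 1 + q 4 + (q 3 + (N - q 2 - q 4)) := by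
  have a1 : (X 0 : MvPolynomial (Fin 2) k) ^ q 0 ≠ 0 := pow_ne_zero _ (X_ne_zero _)
  have a2 : (X 1 : MvPolynomial (Fin 2) k) ^ q 1 ≠ 0 := pow_ne_zero _ (X_ne_zero _)
  have a3 := pow_ne_zero (q 2) (one_sub_ne (k := k) _ s0)
  have a4 := pow_ne_zero (q 4) (one_sub_ne (k := k) _ s1)
  have a5 := pow_ne_zero (q 3 + (N - q 2 - q 4)) (one_sub_ne (k := k) _ s2)
  unfold num
  rw [m.degree_mul (mul_ne_zero (mul_ne_zero (mul_ne_zero a1 a2) a3) a4) a5,
    m.degree_mul (mul_ne_zero (mul_ne_zero a1 a2) a3) a4,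
    m.degree_mul (mul_ne_zero a1 a2) a3, m.degree_mul a1 a2]
  simp only [m.degree_pow, m.degree_X, degree_one_sub m _ s0, degree_one_sub m _ s1,
    degree_one_sub m _ s2]
  constructor
  · simp
  · simp

theorem nat_inj (a b c d e a' b' c' d' e' : ℕ) (h0 : a = 0 ∨ b = 0) (h1 : b = 0 ∨ c = 0)
    (h2 : c = 0 ∨ d = 0) (h3 : d = 0 ∨ e = 0) (h4 : e = 0 ∨ a = 0)
    (g0 : a' = 0 ∨ b' = 0) (g1 : b' = 0 ∨ c' = 0)
    (g2 : c' = 0 ∨ d' = 0) (g3 : d' = 0 ∨ e' = 0) (g4 : e' = 0 ∨ a' = 0)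
    (e0 : a + d + e' = a' + d' + e) (e1 : b + d + c' = b' + d' + c) :
    a = a' ∧ b = b' ∧ c = c' ∧ d = d' ∧ e = e' := by
  omega

theorem num_inj (q q' : Fin 5 → ℕ) (N : ℕ) (hN : q 2 + q 4 ≤ N) (hN' : q' 2 + q' 4 ≤ N)
    (h : ∀ i, q i = 0 ∨ q (i + 1) = 0) (h' : ∀ i, q' i = 0 ∨ q' (i + 1) = 0)
    (e0 : q 0 + q 2 + (q 3 + (N - q 2 - q 4)) = q' 0 + q' 2 + (q' 3 + (N - q' 2 - q' 4)))
    (e1 : q 1 + q 4 + (q 3 + (N - q 2 - q 4)) = q' 1 + q' 4 + (q' 3 + (N - q' 2 - q' 4))) :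
    q = q' := by
  have key := nat_inj (q 0) (q 1) (q 2) (q 3) (q 4) (q' 0) (q' 1) (q' 2) (q' 3) (q' 4)
    (h 0) (h 1) (h 2) (h 3) (h 4) (h' 0) (h' 1) (h' 2) (h' 3) (h' 4) (by omega) (by omega)
  funext i
  fin_cases i
  · exact key.1
  · exact key.2.1
  · exact key.2.2.1
  · exact key.2.2.2.1
  · exact key.2.2.2.2

end CL

theorem cluster_indep {k F : Type*} [Field k] [Field F] [Algebra k F] (u : Fin 5 → F)
    (hu : ∀ i, u i + u (i + 2) * u (i + 3) = 1) (hind : AlgebraicIndependent k ![u 0, u 1]) :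
    LinearIndependent k
      (fun q : {q : Fin 5 → ℕ // ∀ i, q i = 0 ∨ q (i + 1) = 0} => ∏ i, u i ^ q.1 i) := by
  classical
  rw [linearIndependent_iff']
  intro S g hg
  let N := ∑ q ∈ S, (q.1 2 + q.1 4)
  have hN : ∀ q ∈ S, q.1 2 + q.1 4 ≤ N := fun q hq =>
    Finset.single_le_sum (f := fun q : {q : Fin 5 → ℕ // ∀ i, q i = 0 ∨ q (i + 1) = 0} =>
      q.1 2 + q.1 4) (fun _ _ => Nat.zero_le _) hq
  have u3 : 1 - u 0 * u 1 = u 3 := by
    have h := hu 3
    have e1 : (3 : Fin 5) + 2 = 0 := rfl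
    have e2 : (3 : Fin 5) + 3 = 1 := rfl
    rw [e1, e2] at h
    rw [← h]
    ring
  have u23 : 1 - u 0 = u 2 * u 3 := by
    have h := hu 0
    rw [zero_add, zero_add] at h
    rw [← h]
    ring
  have u34 : 1 - u 1 = u 3 * u 4 := by
    have h := hu 1
    have e1 : (1 : Fin 5) + 2 = 3 := rfl
    have e2 : (1 : Fin 5) + 3 = 4 := rfl
    rw [e1, e2] at h
    rw [← h]
    ring
  have hnum : ∀ q : {q : Fin 5 → ℕ // ∀ i, q i = 0 ∨ q (i + 1) = 0}, q.1 2 + q.1 4 ≤ N →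
      MvPolynomial.aeval ![u 0, u 1] (CL.num k N q.1) = u 3 ^ N * ∏ i, u i ^ q.1 i := by
    intro q hq
    obtain ⟨r, hr⟩ : ∃ r, N = q.1 2 + q.1 4 + r := ⟨N - (q.1 2 + q.1 4), by omega⟩
    have e : N - q.1 2 - q.1 4 = r := by omega
    unfold CL.num
    rw [e]
    have f1 : (MvPolynomial.monomial (Finsupp.single (0 : Fin 2) 1) (1 : k)) =
        MvPolynomial.X 0 := rfl
    have f2 : (MvPolynomial.monomial (Finsupp.single (1 : Fin 2) 1) (1 : k)) =
        MvPolynomial.X 1 := rfl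
    have f3 : (MvPolynomial.monomial (Finsupp.single (0 : Fin 2) 1 +
        Finsupp.single (1 : Fin 2) 1) (1 : k)) = MvPolynomial.X 0 * MvPolynomial.X 1 := by
      rw [← f1, ← f2, MvPolynomial.monomial_mul, one_mul]
    rw [f1, f2, f3]
    simp only [map_mul, map_pow, map_sub, map_one, MvPolynomial.aeval_X, Matrix.cons_val_zero,
      Matrix.cons_val_one]
    rw [u3, u23, u34, Fin.prod_univ_five, hr]
    ring
  have hsum : MvPolynomial.aeval ![u 0, u 1]
      (∑ q ∈ S, MvPolynomial.C (g q) * CL.num k N q.1) = 0 := by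
    rw [map_sum]
    calc ∑ q ∈ S, MvPolynomial.aeval ![u 0, u 1] (MvPolynomial.C (g q) * CL.num k N q.1)
        = ∑ q ∈ S, u 3 ^ N * (g q • ∏ i, u i ^ q.1 i) := by
          apply Finset.sum_congr rfl
          intro q hq
          rw [map_mul, hnum q (hN q hq), MvPolynomial.aeval_C, Algebra.smul_def]
          ring
      _ = 0 := by rw [← Finset.mul_sum, hg, mul_zero]
  have hzero : ∑ q ∈ S, MvPolynomial.C (g q) * CL.num k N q.1 = 0 :=
    hind (by rw [hsum, map_zero])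
  -- restrict to the index set `S`
  have hzero' : ∑ q ∈ S.attach, MvPolynomial.C (g q.1) * CL.num k N q.1.1 = 0 := by
    rw [Finset.sum_attach S (fun q => MvPolynomial.C (g q) * CL.num k N q.1)]
    exact hzero
  have key := CL.indep_of_degree (MonomialOrder.lex (σ := Fin 2))
    (fun q : {q // q ∈ S} => CL.num k N q.1.1) (fun q => CL.num_ne k N q.1.1)
    (fun q q' hqq => by
      have d1 := CL.num_degree k (MonomialOrder.lex (σ := Fin 2)) N q.1.1
      have d2 := CL.num_degree k (MonomialOrder.lex (σ := Fin 2)) N q'.1.1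
      rw [hqq] at d1
      have e0 := d1.1.symm.trans d2.1
      have e1 := d1.2.symm.trans d2.2
      apply Subtype.ext
      apply Subtype.ext
      exact CL.num_inj q.1.1 q'.1.1 N (hN q.1 q.2) (hN q'.1 q'.2) q.1.2 q'.1.2 e0 e1)
    S.attach (fun q => g q.1) hzero'
  intro q hq
  exact key ⟨q, hq⟩ (Finset.mem_attach _ _)

end Pool.Agent.helper97.BG
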