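import Pool.Agent.helper81.BG.LSA
import Pool.Agent.helper72.BG.LSB

/-!
# Growth of curves
-/

set_option maxHeartbeats 4000000

namespace Pool.Agent.helper97.BG

open Polynomial Filter Module

variable {k K V : Type*} [Field k] [Field K] [Algebra k K] [AddCommGroup V] [Module K V]
  [Module k V] [IsScalarTower k K V]

namespace LSC

theorem fin_pow {W : Submodule k K} [Module.Finite k W] (n : ℕ) : Module.Finite k ↥(W ^ n) := by
  have h : W.FG := Module.Finite.iff_fg.mp inferInstance
  exact Module.Finite.iff_fg.mpr (Submodule.FG.pow h n)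

theorem finrank_mul (N : Submodule k K) {w : K} (hw : w ≠ 0) :
    finrank k (N.map (LinearMap.mulLeft k w)) = finrank k N :=
  (Submodule.equivMapOfInjective (LinearMap.mulLeft k w)
    (fun _ _ h => mul_left_cancel₀ hw h) N).finrank_eq.symm

/-- If `N` is a prime ideal then multiplication by an element outside `q 1` is injective
modulo `q`. -/
theorem step_dim {W : Submodule k K} [Module.Finite k W] {q : ℕ → Submodule k K}
    (hq' : HPrime W q) {w : K} (hw : w ∈ W) (hw0 : w ≠ 0) (hwq : w ∉ q 1) (m : ℕ) :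
    finrank k ↥(q (m + 1) ⊔ (W ^ m).map (LinearMap.mulLeft k w)) + finrank k (q m) =
      finrank k (q (m + 1)) + finrank k ↥(W ^ m) := by
  have f1 := fin_pow (W := W) m
  have f2 := fin_pow (W := W) (m + 1)
  have f3 : Module.Finite k (q (m + 1)) := Submodule.finiteDimensional_of_le (hq'.le (m + 1))
  have f4 : Module.Finite k ↥((W ^ m).map (LinearMap.mulLeft k w)) := inferInstance
  have h1 := Submodule.finrank_sup_add_finrank_inf_eq (q (m + 1))
    ((W ^ m).map (LinearMap.mulLeft k w))
  have h2 : q (m + 1) ⊓ (W ^ m).map (LinearMap.mulLeft k w) =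
      (q m).map (LinearMap.mulLeft k w) := by
    ext x
    rw [Submodule.mem_inf, Submodule.mem_map, Submodule.mem_map]
    constructor
    · rintro ⟨hx, a, ha, rfl⟩
      refine ⟨a, ?_, rfl⟩
      rw [LinearMap.mulLeft_apply, mul_comm] at hx
      rcases hq'.prime m 1 a w ha (by rw [pow_one]; exact hw) hx with h | h
      · exact h
      · exact absurd h hwq
    · rintro ⟨a, ha, rfl⟩
      exact ⟨hq'.fam m w hw a ha, a, hq'.le m ha, rfl⟩
  rw [h2] at h1
  have e1 : finrank k ↥((q m).map (LinearMap.mulLeft k w)) = finrank k (q m) :=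
    finrank_mul _ hw0
  have e2 : finrank k ↥((W ^ m).map (LinearMap.mulLeft k w)) = finrank k ↥(W ^ m) :=
    finrank_mul _ hw0
  omega

end LSC

/-- `curve_growth`, from the statement of `hprime_cases`. -/
theorem LSC.curve_growth_of {W : Submodule k K} {𝒲 : Finset K} (hS : Setup W 𝒲)
    (hprime_cases : ∀ {q : ℕ → Submodule k K}, HPrime W q → (∃ m, q m ≠ ⊥) →
      (∃ C, ∀ m, hq W q m ≤ C) ∨
        ((∃ ord lam, CurveVal W q ord lam) ∧ HeightOne W q ∧ ¬ ∃ C, ∀ m, hq W q m ≤ C))
    {q : ℕ → Submodule k K} (hq' : HPrime W q) (h0 : ∃ m, q m ≠ ⊥)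
    (hb : ¬ ∃ C, ∀ m, hq W q m ≤ C) :
    ∃ C, ∀ m, hq W q m ≤ hq W q (m + 1) ∧ hq W q (m + 1) ≤ hq W q m + C := by
  have hfin := hS.fin
  have h1 := hS.one
  -- an element of `W` outside `q 1`
  have hex : ∃ w ∈ W, w ∉ q 1 := by
    by_contra hcon
    push Not at hcon
    apply hb
    have hall : ∀ m, 1 ≤ m → W ^ m ≤ q m := by
      intro m hm
      induction m, hm using Nat.le_induction with
      | base => rw [pow_one]; exact hcon
      | succ m hm ih =>
        rw [pow_succ', Submodule.mul_le]
        intro f hf v hv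
        exact hq'.fam m f hf v (ih hv)
    refine ⟨finrank k ↥(W ^ 0), ?_⟩
    intro m
    unfold hq
    rcases Nat.eq_zero_or_pos m with rfl | hm
    · exact Nat.sub_le _ _
    · have e : q m = W ^ m := le_antisymm (hq'.le m) (hall m hm)
      rw [e]
      omega
  obtain ⟨w, hw, hwq⟩ := hex
  have hw0 : w ≠ 0 := by
    rintro rfl
    exact hwq (q 1).zero_mem
  -- the family `q + w A`
  let N : ℕ → Submodule k K := fun m =>
    match m with
    | 0 => q 0
    | m + 1 => q (m + 1) ⊔ (W ^ m).map (LinearMap.mulLeft k w)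
  have hN0 : N 0 = q 0 := rfl
  have hN1 : ∀ m, N (m + 1) = q (m + 1) ⊔ (W ^ m).map (LinearMap.mulLeft k w) := fun m => rfl
  have hqN : ∀ m, q m ≤ N m := by
    intro m
    cases m with
    | zero => exact le_rfl
    | succ m => exact le_sup_left
  have hNW : ∀ m, N m ≤ W ^ m := by
    intro m
    cases m with
    | zero => exact hq'.le 0
    | succ m =>
      rw [hN1]
      refine sup_le (hq'.le _) ?_
      rintro _ ⟨a, ha, rfl⟩
      rw [LinearMap.mulLeft_apply, pow_succ']
      exact Submodule.mul_mem_mul hw ha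
  have hNfam : Fam W N := by
    intro m f hf v hv
    rw [smul_eq_mul]
    cases m with
    | zero =>
      exact hqN _ (hq'.fam 0 f hf v hv)
    | succ m =>
      rw [hN1, Submodule.mem_sup] at hv
      obtain ⟨a, ha, _, ⟨b, hb, rfl⟩, rfl⟩ := hv
      rw [hN1, mul_add]
      refine Submodule.add_mem_sup (hq'.fam _ f hf a ha) ⟨f * b, ?_, ?_⟩
      · rw [pow_succ']
        exact Submodule.mul_mem_mul hf hb
      · rw [LinearMap.mulLeft_apply, LinearMap.mulLeft_apply]
        ring
  have hWfam : Fam W (fun m => W ^ m) := (isTorsionFreeSheaf_self (W := W)).smul_mem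
  obtain ⟨l, hl⟩ := exists_chain h1 (isTorsionFreeSheaf_self (W := W)) hNfam hWfam hNW
    (fun m => le_rfl)
  -- all the primes of the chain are small
  have hsmall : ∀ {N₁ : ℕ → Submodule k K} {l : List ((ℕ → Submodule k K) × ℕ)},
      Chain W N N₁ l → (∀ m, N₁ m ≤ W ^ m) → (∀ m, N m ≤ N₁ m) ∧
        ∀ qc ∈ l, ∃ C, ∀ m, hq W qc.1 m ≤ C := by
    intro N₁ l hc
    induction hc with
    | nil => exact fun _ => ⟨fun m => le_rfl, by simp⟩
    | @cons N₁ N₂ q' c x l hc hs ih =>
      intro hle
      have hN12 : ∀ m, N₁ m ≤ N₂ m := by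
        intro m
        by_cases hm : m < c
        · rw [hs.low m hm]
        · obtain ⟨m, rfl⟩ : ∃ m', m = m' + c := ⟨m - c, by omega⟩
          intro v hv
          rw [hs.mem]
          exact ⟨v, hv, 0, (W ^ m).zero_mem, by rw [zero_smul, add_zero]⟩
      obtain ⟨hge, hall⟩ := ih (fun m => (hN12 m).trans (hle m))
      refine ⟨fun m => (hge m).trans (hN12 m), ?_⟩
      intro qc hqc
      rcases List.mem_cons.1 hqc with rfl | hqc
      · have hxc : x ∈ W ^ c := by
          apply hle
          have := (hs.mem 0 x).2 ⟨0, (N₁ _).zero_mem, 1, by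
            rw [pow_zero]
            exact Submodule.one_le.mp le_rfl, by rw [zero_add, one_smul]⟩
          rwa [zero_add] at this
        have hqq' : ∀ m, q m ≤ q' m := by
          intro m a ha
          rw [hs.mem_q]
          refine ⟨hq'.le m ha, ?_⟩
          apply hge
          apply hqN
          have := hq'.fam.pow hxc ha
          rw [smul_eq_mul, mul_comm] at this
          exact this
        have hwq' : w ∈ q' 1 := by
          rw [hs.mem_q]
          refine ⟨by rw [pow_one]; exact hw, ?_⟩
          apply hge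
          rw [add_comm, hN1]
          exact Submodule.mem_sup_right ⟨x, hxc, rfl⟩
        rcases hprime_cases hs.prime (by
          obtain ⟨m, hm⟩ := h0
          exact ⟨m, fun h => hm (le_bot_iff.1 (h ▸ hqq' m))⟩) with h | ⟨-, h, -⟩
        · exact h
        · exfalso
          have := h q hq' h0 hqq'
          rw [← this] at hwq'
          exact hwq hwq'
      · exact hall qc hqc
  obtain ⟨-, hsm⟩ := hsmall hl (fun m => le_rfl)
  choose! C hC using hsm
  have hNfin : ∀ m, Module.Finite k (N m) := fun m => by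
    have := LSC.fin_pow (W := W) m
    exact Submodule.finiteDimensional_of_le (hNW m)
  have hrk := fun m => hl.finrank_eq hNfin m
  have hsum : ∀ m, (l.map fun qc => if qc.2 ≤ m then hq W qc.1 (m - qc.2) else 0).sum ≤
      (l.map C).sum := by
    intro m
    apply List.sum_le_sum
    intro qc hqc
    split_ifs
    · exact hC qc hqc _
    · exact Nat.zero_le _
  refine ⟨(l.map C).sum, fun m => ?_⟩
  have e1 := LSC.step_dim hq' hw hw0 hwq m
  have e2 := hrk (m + 1)
  have e3 := hsum (m + 1)
  rw [hN1] at e2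
  change finrank k ↥(W ^ (m + 1)) = _ at e2
  have e4 : finrank k (q m) ≤ finrank k ↥(W ^ m) := by
    have := LSC.fin_pow (W := W) m
    exact Submodule.finrank_mono (hq'.le m)
  have e5 : finrank k (q (m + 1)) ≤ finrank k ↥(W ^ (m + 1)) := by
    have := LSC.fin_pow (W := W) (m + 1)
    exact Submodule.finrank_mono (hq'.le (m + 1))
  unfold hq
  unfold hq at e2 e3
  constructor <;> omega

theorem curve_growth [IsAlgClosed k] {W : Submodule k K} {𝒲 : Finset K} (hS : Setup W 𝒲)
    {q : ℕ → Submodule k K} (hq' : HPrime W q) (h0 : ∃ m, q m ≠ ⊥)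
    (hb : ¬ ∃ C, ∀ m, hq W q m ≤ C) :
    ∃ C, ∀ m, hq W q m ≤ hq W q (m + 1) ∧ hq W q (m + 1) ≤ hq W q m + C :=
  LSC.curve_growth_of hS (fun h h' => hprime_cases hS h h') hq' h0 hb

end Pool.Agent.helper97.BG
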