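import Pool.Agent.helper60.BG.DEC
import Pool.Agent.helper65.BG.SPAN
import Pool.Agent.helper88.BG.IT

/-!
# Dimensions of the graded pieces
-/

set_option maxHeartbeats 4000000

namespace Pool.Agent.helper97.BG

open Module

namespace DIM

variable {k K : Type*} [Field k] [Field K] [Algebra k K]

/-- The span of the standard monomials in `V` of level `L`. -/
def BL (d : PD k K) (L : ℕ) : Submodule k K :=
  Submodule.span k (Set.range fun n : {n : Fin 5 → ℕ // Std n ∧ Lev L n} => d.mon n.1)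

/-- The span of the standard monomials in `V`. -/
def BA (d : PD k K) : Submodule k K :=
  Submodule.span k (Set.range fun n : {n : Fin 5 → ℕ // Std n} => d.mon n.1)

theorem BL_le (d : PD k K) (L : ℕ) : BL d L ≤ BA d := by
  apply Submodule.span_le.2
  rintro _ ⟨n, rfl⟩
  exact Submodule.subset_span ⟨⟨n.1, n.2.1⟩, rfl⟩

theorem mon_mem_BL (d : PD k K) {L : ℕ} {n : Fin 5 → ℕ} (hn : Lev L n) : d.mon n ∈ BL d L := by
  have h := span_std (R := k) d.V 0 (fun _ => 0) d.rel (by simp) (m := L) (b := 0) (n := n)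
    (Nat.zero_le _) (by simpa using hn)
  rw [pow_zero, mul_one] at h
  refine Submodule.span_le.2 ?_ h
  rintro _ ⟨n', b, hb5, hbL, hst, hlev, rfl⟩
  rcases Nat.eq_zero_or_pos b with rfl | hb
  · rw [pow_zero, mul_one]
    exact Submodule.subset_span ⟨⟨n', hst, by simpa using hlev⟩, rfl⟩
  · rw [zero_pow hb.ne', mul_zero]
    exact (BL d L).zero_mem

theorem lev_of_sum (n : Fin 5 → ℕ) : Lev (∑ i, n i + ∑ i, n i) n := by
  intro l
  have h1 : n (l + 1) ≤ ∑ i, n i := Finset.single_le_sum (fun _ _ => Nat.zero_le _) (Finset.mem_univ _)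
  have h2 : n (l + 3) ≤ ∑ i, n i := Finset.single_le_sum (fun _ _ => Nat.zero_le _) (Finset.mem_univ _)
  omega

theorem mon_mem_BA (d : PD k K) (n : Fin 5 → ℕ) : d.mon n ∈ BA d :=
  BL_le d _ (mon_mem_BL d (lev_of_sum n))

theorem mon_mul (d : PD k K) (n n' : Fin 5 → ℕ) : d.mon n * d.mon n' = d.mon (n + n') := by
  unfold PD.mon
  rw [← Finset.prod_mul_distrib]
  exact Finset.prod_congr rfl fun i _ => by rw [Pi.add_apply, pow_add]

theorem mul_mem_BA (d : PD k K) {x y : K} (hx : x ∈ BA d) (hy : y ∈ BA d) : x * y ∈ BA d := by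
  have : BA d * BA d ≤ BA d := by
    unfold BA
    rw [Submodule.span_mul_span, Submodule.span_le]
    rintro _ ⟨_, ⟨n, rfl⟩, _, ⟨n', rfl⟩, rfl⟩
    show d.mon n.1 * d.mon n'.1 ∈ BA d
    rw [mon_mul]
    exact mon_mem_BA d _
  exact this (Submodule.mul_mem_mul hx hy)

theorem V_pow (d : PD k K) (i : Fin 5) (j : ℕ) : d.V i ^ j = d.mon (Pi.single i j) := by
  unfold PD.mon
  rw [Finset.prod_eq_single i]
  · rw [Pi.single_eq_same]
  · intro l _ hl
    rw [Pi.single_eq_of_ne hl, pow_zero]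
  · intro h
    exact absurd (Finset.mem_univ _) h

theorem g_mem_BA (d : PD k K) : d.y ^ 5 ∈ BA d := by
  rw [d.yrel]
  apply Submodule.sum_mem
  intro i _
  rw [← Algebra.smul_def, V_pow]
  exact (BA d).smul_mem _ (mon_mem_BA d _)

/-- Independence of `1, y, .., y ^ 4` over `k[V]`. -/
theorem zero_of_sum {ι : Type*} (v : ι → K) (z : Fin 5 → K)
    (hli : LinearIndependent k (fun s : ι × Fin 5 => v s.1 * z s.2)) (p : Fin 5 → K)
    (hp : ∀ b, p b ∈ Submodule.span k (Set.range v)) (h : ∑ b, p b * z b = 0) : p = 0 := by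
  classical
  have hc : ∀ b, ∃ c : ι →₀ k, (c.sum fun i a => a • v i) = p b := fun b =>
    Finsupp.mem_span_range_iff_exists_finsupp.1 (hp b)
  choose c hc using hc
  let S : Finset ι := Finset.univ.biUnion fun b => (c b).support
  have hpS : ∀ b, p b = ∑ i ∈ S, c b i • v i := by
    intro b
    rw [← hc b, Finsupp.sum]
    apply Finset.sum_subset
    · exact Finset.subset_biUnion_of_mem (fun b => (c b).support) (Finset.mem_univ b)
    · intro i _ hi
      rw [Finsupp.notMem_support_iff.1 hi, zero_smul]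
  have hsum : ∑ s ∈ S ×ˢ (Finset.univ : Finset (Fin 5)), c s.2 s.1 • (v s.1 * z s.2) = 0 := by
    rw [Finset.sum_product_right, ← h]
    apply Finset.sum_congr rfl
    intro b _
    rw [hpS b, Finset.sum_mul]
    apply Finset.sum_congr rfl
    intro i _
    rw [smul_mul_assoc]
  have h0 := linearIndependent_iff'.1 hli _ _ hsum
  funext b
  rw [hpS b, Pi.zero_apply]
  apply Finset.sum_eq_zero
  intro i hi
  rw [h0 (i, b) (Finset.mem_product.2 ⟨hi, Finset.mem_univ _⟩), zero_smul]

theorem indep_y [IsAlgClosed k] (h5 : (5 : k) ≠ 0) (d : PD k K) (hc : KumCond d.c)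
    (p : Fin 5 → K) (hp : ∀ b, p b ∈ BA d) (h : ∑ b, p b * d.y ^ (b : ℕ) = 0) : p = 0 :=
  zero_of_sum (fun n : {n : Fin 5 → ℕ // Std n} => d.mon n.1) (fun b : Fin 5 => d.y ^ (b : ℕ))
    (d.std_indep h5 hc) p hp h

theorem y_ne [IsAlgClosed k] (h5 : (5 : k) ≠ 0) (d : PD k K) (hc : KumCond d.c) : d.y ≠ 0 := by
  intro hy
  have hst : Std (fun _ => 0) := fun i => Or.inl (by norm_num)
  have := (d.std_indep h5 hc).ne_zero (⟨⟨fun _ => 0, hst⟩, 1⟩)
  apply this
  show d.mon _ * d.y ^ ((1 : Fin 5) : ℕ) = 0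
  rw [hy]
  simp

theorem indep_y2 [IsAlgClosed k] (h5 : (5 : k) ≠ 0) (d : PD k K) (hc : KumCond d.c)
    (p : Fin 5 → K) (hp : ∀ b, p b ∈ BA d) (h : ∑ b, p b * d.y ^ (2 * (b : ℕ)) = 0) :
    p = 0 := by
  have hg := g_mem_BA d
  have hy := y_ne h5 d hc
  have hg0 : d.y ^ 5 ≠ 0 := pow_ne_zero _ hy
  have key := indep_y h5 d hc ![p 0, d.y ^ 5 * p 3, p 1, d.y ^ 5 * p 4, p 2] (by
    intro b
    fin_cases b
    · exact hp 0
    · exact mul_mem_BA d hg (hp 3)
    · exact hp 1
    · exact mul_mem_BA d hg (hp 4)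
    · exact hp 2) (by
    rw [← h, Fin.sum_univ_five, Fin.sum_univ_five]
    simp
    ring)
  have k0 := congrFun key 0
  have k1 := congrFun key 1
  have k2 := congrFun key 2
  have k3 := congrFun key 3
  have k4 := congrFun key 4
  simp at k0 k1 k2 k3 k4
  funext b
  fin_cases b
  · exact k0
  · exact k2
  · exact k4
  · exact k1.resolve_left hy
  · exact k3.resolve_left hy

theorem finite_idx (L : ℕ) : Finite {n : Fin 5 → ℕ // Std n ∧ Lev L n} := by
  let f : {n : Fin 5 → ℕ // Std n ∧ Lev L n} → (Fin 5 → Fin (5 * L + 1)) := fun n i =>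
    ⟨n.1 i, by
      have h1 := lev_sum n.2.2
      have h2 : n.1 i ≤ ∑ i, n.1 i :=
        Finset.single_le_sum (fun _ _ => Nat.zero_le _) (Finset.mem_univ _)
      omega⟩
  refine Finite.of_injective f ?_
  intro n n' h
  apply Subtype.ext
  funext i
  exact congrArg Fin.val (congrFun h i)

theorem finrank_BL [IsAlgClosed k] (h5 : (5 : k) ≠ 0) (d : PD k K) (hc : KumCond d.c) (L : ℕ) :
    finrank k (BL d L) = hcount L := by
  have := finite_idx L
  have := Fintype.ofFinite {n : Fin 5 → ℕ // Std n ∧ Lev L n}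
  have hli : LinearIndependent k (fun n : {n : Fin 5 → ℕ // Std n ∧ Lev L n} => d.mon n.1) := by
    have h := (d.std_indep h5 hc).comp
      (fun n : {n : Fin 5 → ℕ // Std n ∧ Lev L n} => (⟨⟨n.1, n.2.1⟩, 0⟩ :
        {n : Fin 5 → ℕ // Std n} × Fin 5)) (by
        intro n n' h
        apply Subtype.ext
        exact congrArg (fun s => s.1.1) h)
    have e : (fun n : {n : Fin 5 → ℕ // Std n ∧ Lev L n} => d.mon n.1) =
        (fun s : {n : Fin 5 → ℕ // Std n} × Fin 5 => d.mon s.1.1 * d.y ^ (s.2 : ℕ)) ∘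
        (fun n : {n : Fin 5 → ℕ // Std n ∧ Lev L n} => (⟨⟨n.1, n.2.1⟩, 0⟩ :
        {n : Fin 5 → ℕ // Std n} × Fin 5)) := by
      funext n
      show _ = d.mon n.1 * d.y ^ 0
      rw [pow_zero, mul_one]
    rw [e]
    exact h
  unfold BL
  rw [finrank_span_eq_card hli, hcount, Nat.card_eq_fintype_card]

theorem finite_BL (d : PD k K) (L : ℕ) : Module.Finite k (BL d L) := by
  have := finite_idx L
  exact Module.Finite.span_of_finite k (Set.finite_range _)

/-- The sum map. -/
noncomputable def Phi (d : PD k K) (L : Fin 5 → ℕ) (z : Fin 5 → K) :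
    (∀ b, BL d (L b)) →ₗ[k] K :=
  ∑ b, (LinearMap.mulRight k (z b)) ∘ₗ (BL d (L b)).subtype ∘ₗ LinearMap.proj b

theorem Phi_apply (d : PD k K) (L : Fin 5 → ℕ) (z : Fin 5 → K) (p : ∀ b, BL d (L b)) :
    Phi d L z p = ∑ b, (p b : K) * z b := by
  unfold Phi
  rw [LinearMap.sum_apply]
  rfl

theorem finrank_Phi [IsAlgClosed k] (h5 : (5 : k) ≠ 0) (d : PD k K) (hc : KumCond d.c)
    (L : Fin 5 → ℕ) (z : Fin 5 → K)
    (hz : ∀ p : Fin 5 → K, (∀ b, p b ∈ BA d) → ∑ b, p b * z b = 0 → p = 0) :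
    finrank k (LinearMap.range (Phi d L z)) = ∑ b, hcount (L b) := by
  have : ∀ b, Module.Finite k (BL d (L b)) := fun b => finite_BL d _
  rw [LinearMap.finrank_range_of_inj, finrank_pi_fintype]
  · exact Finset.sum_congr rfl fun b _ => finrank_BL h5 d hc _
  · rw [injective_iff_map_eq_zero]
    intro p hp
    rw [Phi_apply] at hp
    have h := hz (fun b => (p b : K)) (fun b => BL_le d _ (p b).2) hp
    funext b
    exact Subtype.ext (congrFun h b)

theorem range_W (d : PD k K) {m : ℕ} (hm : 4 ≤ m) :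
    LinearMap.range (Phi d (fun b => m - b) (fun b => d.y ^ (b : ℕ))) = d.Wm m := by
  apply le_antisymm
  · rintro _ ⟨p, rfl⟩
    rw [Phi_apply]
    apply Submodule.sum_mem
    intro b _
    have hb : (b : ℕ) ≤ m := by have := b.2; omega
    have key : ∀ x ∈ BL d (m - b), x * d.y ^ (b : ℕ) ∈ d.Wm m := by
      intro x hx
      unfold BL at hx
      induction hx using Submodule.span_induction with
      | mem x hx =>
        obtain ⟨n, rfl⟩ := hx
        exact Submodule.subset_span ⟨n.1, b, hb, n.2.2, rfl⟩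
      | zero => rw [zero_mul]; exact (d.Wm m).zero_mem
      | add x y _ _ h1 h2 => rw [add_mul]; exact (d.Wm m).add_mem h1 h2
      | smul a x _ h1 => rw [smul_mul_assoc]; exact (d.Wm m).smul_mem _ h1
    exact key _ (p b).2
  · unfold PD.Wm
    rw [Submodule.span_le]
    rintro _ ⟨n, b, hb, hn, rfl⟩
    have h := span_std (R := k) d.V d.y d.c d.rel d.yrel hb hn
    refine Submodule.span_le.2 ?_ h
    rintro _ ⟨n', b', hb5, hbL, hst, hlev, rfl⟩
    refine ⟨Pi.single (⟨b', hb5⟩ : Fin 5) ⟨d.mon n', Submodule.subset_span ⟨⟨n', hst, hlev⟩, rfl⟩⟩,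
      ?_⟩
    rw [Phi_apply, Finset.sum_eq_single (⟨b', hb5⟩ : Fin 5)]
    · rw [Pi.single_eq_same]
      rfl
    · intro l _ hl
      rw [Pi.single_eq_of_ne hl]
      simp
    · intro h
      exact absurd (Finset.mem_univ _) h

theorem range_M [CharP k 2] [CharP K 2] (d : PD k K) {m : ℕ} (hm : 4 ≤ m) :
    LinearMap.range (Phi d (fun b => 2 * (m - b)) (fun b => d.y ^ (2 * (b : ℕ)))) = d.Mm m := by
  apply le_antisymm
  · rintro _ ⟨p, rfl⟩
    rw [Phi_apply]
    apply Submodule.sum_mem
    intro b _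
    have hb : (b : ℕ) ≤ m := by have := b.2; omega
    have key : ∀ x ∈ BL d (2 * (m - b)), x * d.y ^ (2 * (b : ℕ)) ∈ d.Mm m := by
      intro x hx
      unfold BL at hx
      induction hx using Submodule.span_induction with
      | mem x hx =>
        obtain ⟨n, rfl⟩ := hx
        exact Submodule.subset_span ⟨n.1, b, hb, n.2.2, rfl⟩
      | zero => rw [zero_mul]; exact (d.Mm m).zero_mem
      | add x y _ _ h1 h2 => rw [add_mul]; exact (d.Mm m).add_mem h1 h2
      | smul a x _ h1 => rw [smul_mul_assoc]; exact (d.Mm m).smul_mem _ h1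
    exact key _ (p b).2
  · unfold PD.Mm
    rw [Submodule.span_le]
    set U := LinearMap.range (Phi d (fun b => 2 * (m - b)) (fun b => d.y ^ (2 * (b : ℕ)))) with hU
    -- the case `b < 5`
    have hlow : ∀ (b : Fin 5) (x : K), x ∈ BL d (2 * (m - b)) → x * d.y ^ (2 * (b : ℕ)) ∈ U := by
      intro b x hx
      refine ⟨Pi.single b ⟨x, hx⟩, ?_⟩
      rw [Phi_apply, Finset.sum_eq_single b]
      · rw [Pi.single_eq_same]
      · intro l _ hl
        rw [Pi.single_eq_of_ne hl]
        simp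
      · intro h
        exact absurd (Finset.mem_univ _) h
    have key : ∀ (b : ℕ) (n : Fin 5 → ℕ), b ≤ m → Lev (2 * (m - b)) n →
        d.mon n * d.y ^ (2 * b) ∈ U := by
      intro b
      induction b using Nat.strong_induction_on with
      | _ b ih =>
      intro n hb hn
      by_cases h5 : b < 5
      · exact hlow ⟨b, h5⟩ _ (mon_mem_BL d hn)
      · obtain ⟨b', rfl⟩ : ∃ b', b = b' + 5 := ⟨b - 5, by omega⟩
        have e1 : d.mon n * d.y ^ (2 * (b' + 5)) =
            ∑ i, (d.c i ^ 2) • (d.mon (n + Pi.single i 10) * d.y ^ (2 * b')) := by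
          have e2 : d.y ^ (2 * (b' + 5)) = (d.y ^ 5) ^ 2 * d.y ^ (2 * b') := by ring
          have e3 : (d.y ^ 5) ^ 2 = ∑ i, algebraMap k K (d.c i ^ 2) * d.mon (Pi.single i 10) := by
            rw [d.yrel]
            have := sum_pow_char 2 (Finset.univ : Finset (Fin 5))
              (fun i => algebraMap k K (d.c i) * d.V i ^ 5)
            rw [this]
            apply Finset.sum_congr rfl
            intro i _
            rw [← V_pow, map_pow]
            ring
          rw [e2, e3, Finset.sum_mul, Finset.mul_sum]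
          apply Finset.sum_congr rfl
          intro i _
          rw [← mon_mul, Algebra.smul_def]
          ring
        rw [e1]
        apply Submodule.sum_mem
        intro i _
        apply U.smul_mem
        apply ih b' (by omega) _ (by omega)
        intro l
        have hl := hn l
        have hs1 : (Pi.single i 10 : Fin 5 → ℕ) (l + 1) + (Pi.single i 10 : Fin 5 → ℕ) (l + 3) ≤ 10 := by
          simp only [Pi.single_apply]
          fin_cases i <;> fin_cases l <;> decide
        simp only [Pi.add_apply]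
        omega
    rintro _ ⟨n, b, hb, hn, rfl⟩
    exact key b n hb hn

end DIM

theorem PD.finrank_W {k K : Type*} [Field k] [Field K] [Algebra k K] [IsAlgClosed k]
    (h5 : (5 : k) ≠ 0) (d : PD k K) (hc : KumCond d.c) {m : ℕ} (hm : 4 ≤ m) :
    finrank k (d.Wm m) = ∑ b : Fin 5, hcount (m - b) := by
  rw [← DIM.range_W d hm]
  exact DIM.finrank_Phi h5 d hc _ _ (DIM.indep_y h5 d hc)

theorem PD.finrank_M {k K : Type*} [Field k] [Field K] [Algebra k K] [IsAlgClosed k]
    [CharP k 2] [CharP K 2] (d : PD k K) (hc : KumCond d.c) {m : ℕ} (hm : 4 ≤ m) :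
    finrank k (d.M m) = ∑ b : Fin 5, hcount (2 * (m - b)) := by
  have h5 : (5 : k) ≠ 0 := by
    have h : (5 : k) = 1 := by
      have h2 : (2 : k) = 0 := CharTwo.two_eq_zero
      linear_combination 2 * h2
    rw [h]
    exact one_ne_zero
  have h1 : finrank k (d.Mm m) = ∑ b : Fin 5, hcount (2 * (m - b)) := by
    rw [← DIM.range_M d hm]
    exact DIM.finrank_Phi h5 d hc _ _ (DIM.indep_y2 h5 d hc)
  rw [← h1]
  unfold finrank
  congr 1
  refine rank_eq_of_equiv_equiv (R := k) (R' := k) (M := d.M m) (M₁ := d.Mm m)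
    (fun a : k => a ^ 2) ?_ ?_ ?_
  · exact
      { toFun := fun v => ⟨Fr.mk.symm v.1, v.2⟩
        invFun := fun v => ⟨Fr.mk v.1, v.2⟩
        left_inv := fun v => rfl
        right_inv := fun v => rfl
        map_add' := fun v w => rfl }
  · constructor
    · intro a b hab
      have : frobenius k 2 a = frobenius k 2 b := hab
      exact frobenius_inj k 2 this
    · intro a
      obtain ⟨b, hb⟩ := IsAlgClosed.exists_pow_nat_eq a (n := 2) (by norm_num)
      exact ⟨b, hb⟩
  · intro r v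
    apply Subtype.ext
    have h : ∀ w : K, algebraMap k K r ^ 2 * w = (r ^ 2) • w := fun w => by
      rw [Algebra.smul_def, map_pow]
    exact h (Fr.mk.symm v.1)

end Pool.Agent.helper97.BG
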