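import Pool.Agent.helper97.BG.LSDefs

/-!
# Basic facts on charts and families; prime filtrations exist
-/

set_option maxHeartbeats 4000000

namespace Pool.Agent.helper97.BG

open Polynomial Filter Module

variable {k K V : Type*} [Field k] [Field K] [Algebra k K] [AddCommGroup V] [Module K V]
  [Module k V] [IsScalarTower k K V]

/-! ### LS0 : basic facts on charts and powers -/

theorem Fam.pow {W : Submodule k K} {N : ℕ → Submodule k V} (hN : Fam W N) {a m : ℕ} {f : K}
    (hf : f ∈ W ^ a) {v : V} (hv : v ∈ N m) : f • v ∈ N (m + a) := by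
  induction a generalizing f with
  | zero =>
    rw [pow_zero, Submodule.mem_one] at hf
    obtain ⟨r, rfl⟩ := hf
    rw [algebraMap_smul]
    exact (N m).smul_mem r hv
  | succ a ih =>
    rw [pow_succ'] at hf
    induction hf using Submodule.mul_induction_on' with
    | mem_mul_mem x hx y hy =>
      rw [mul_smul]
      exact hN _ _ hx _ (ih hy)
    | add x hx y hy h1 h2 =>
      rw [add_smul]
      exact (N _).add_mem h1 h2

theorem mem_chart_iff {W : Submodule k K} (_h1 : (1 : K) ∈ W) {w : K} (hw : w ∈ W) (hw0 : w ≠ 0)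
    {x : K} : x ∈ chart W w ↔ ∃ n : ℕ, w ^ n * x ∈ W ^ n := by
  constructor
  · intro hx
    induction hx using Algebra.adjoin_induction with
    | mem x hx =>
      obtain ⟨f, hf, rfl⟩ := hx
      refine ⟨1, ?_⟩
      rw [pow_one, pow_one, mul_div_cancel₀ _ hw0]
      exact hf
    | algebraMap r =>
      exact ⟨0, by
        rw [pow_zero W, Submodule.mem_one, pow_zero, one_mul]
        exact ⟨r, rfl⟩⟩
    | add x y hx hy h1 h2 =>
      obtain ⟨n, hn⟩ := h1
      obtain ⟨m, hm⟩ := h2
      refine ⟨n + m, ?_⟩
      have e1 : w ^ (n + m) * (x + y) = (w ^ n * x) * w ^ m + w ^ n * (w ^ m * y) := by ring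
      rw [e1, pow_add W]
      exact Submodule.add_mem _ (Submodule.mul_mem_mul hn (Submodule.pow_mem_pow _ hw m))
        (Submodule.mul_mem_mul (Submodule.pow_mem_pow _ hw n) hm)
    | mul x y hx hy h1 h2 =>
      obtain ⟨n, hn⟩ := h1
      obtain ⟨m, hm⟩ := h2
      refine ⟨n + m, ?_⟩
      have e1 : w ^ (n + m) * (x * y) = (w ^ n * x) * (w ^ m * y) := by ring
      rw [e1, pow_add W]
      exact Submodule.mul_mem_mul hn hm
  · rintro ⟨n, hn⟩
    have key : ∀ (n : ℕ) (y : K), y ∈ W ^ n → y / w ^ n ∈ chart W w := by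
      intro n
      induction n with
      | zero =>
        intro y hy
        rw [pow_zero, Submodule.mem_one] at hy
        obtain ⟨r, rfl⟩ := hy
        rw [pow_zero, div_one]
        exact Subalgebra.algebraMap_mem _ r
      | succ n ih =>
        intro y hy
        rw [pow_succ'] at hy
        induction hy using Submodule.mul_induction_on' with
        | mem_mul_mem x hx y hy =>
          have e1 : x * y / w ^ (n + 1) = (x / w) * (y / w ^ n) := by
            rw [pow_succ', div_mul_div_comm]
          rw [e1]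
          exact Subalgebra.mul_mem _ (Algebra.subset_adjoin ⟨x, hx, rfl⟩) (ih y hy)
        | add x hx y hy h1 h2 =>
          rw [add_div]
          exact Subalgebra.add_mem _ h1 h2
    have := key n _ hn
    rwa [mul_div_cancel_left₀ _ (pow_ne_zero n hw0)] at this

theorem isTorsionFreeSheaf_self {W : Submodule k K} [Module.Finite k W] :
    IsTorsionFreeSheaf (V := K) W (fun m => W ^ m) where
  finite := fun m => by
    have h : W.FG := Module.Finite.iff_fg.mp inferInstance
    exact Module.Finite.iff_fg.mpr (Submodule.FG.pow h m)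
  smul_mem := fun m f hf v hv => by
    show f • v ∈ W ^ (m + 1)
    rw [pow_succ', smul_eq_mul]
    exact Submodule.mul_mem_mul hf hv
  coherent := ⟨0, fun m _ => by
    show W ^ (m + 1) ≤ _
    rw [pow_succ', Submodule.mul_le]
    intro f hf v hv
    exact Submodule.subset_span ⟨f, hf, v, hv, rfl⟩⟩

/-! ### Ascending chain condition -/

namespace LSA

/-- The Rees-type algebra generated by `W X`. -/
noncomputable def RA (W : Submodule k K) : Subalgebra k K[X] :=
  Algebra.adjoin k {p | ∃ f ∈ W, p = C f * X}

theorem RA_noeth (W : Submodule k K) [Module.Finite k W] : IsNoetherianRing (RA W) := by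
  have h : W.FG := Module.Finite.iff_fg.mp inferInstance
  obtain ⟨S, hS⟩ := h
  classical
  have e : RA W = Algebra.adjoin k ((fun f : K => C f * X) '' (S : Set K)) := by
    apply le_antisymm
    · apply Algebra.adjoin_le
      rintro _ ⟨f, hf, rfl⟩
      rw [← hS] at hf
      show C f * X ∈ Algebra.adjoin k ((fun f : K => C f * X) '' (S : Set K))
      induction hf using Submodule.span_induction with
      | mem x hx => exact Algebra.subset_adjoin ⟨x, hx, rfl⟩
      | zero => simp
      | add x y _ _ h1 h2 =>
        rw [C_add, add_mul]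
        exact Subalgebra.add_mem _ h1 h2
      | smul a x _ h1 =>
        have : (C (a • x) * X : K[X]) = a • (C x * X) := by
          rw [← smul_C, smul_mul_assoc]
        rw [this]
        exact Subalgebra.smul_mem _ h1 a
    · apply Algebra.adjoin_mono
      rintro _ ⟨f, hf, rfl⟩
      exact ⟨f, by rw [← hS]; exact Submodule.subset_span hf, rfl⟩
  have hfg : (RA W).FG := by
    rw [e]
    have : ((fun f : K => C f * X) '' (S : Set K)) =
        ((S.image (fun f : K => C f * X) : Finset K[X]) : Set K[X]) := by
      classical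
      push_cast
      rfl
    exact ⟨_, (by rw [this] : Algebra.adjoin k _ = _)⟩
  have : Algebra.FiniteType k (RA W) := (Subalgebra.fg_iff_finiteType _).mp hfg
  exact Algebra.FiniteType.isNoetherianRing k _

/-- The graded submodule attached to a family. -/
noncomputable def til {W : Submodule k K} {N : ℕ → Submodule k V} (hN : Fam W N) :
    Submodule (RA W) (PolynomialModule K V) where
  carrier := {p | ∀ m, p.coeff m ∈ N m}
  add_mem' := fun {a b} ha hb m => by
    rw [PolynomialModule.coeff_add, Finsupp.add_apply]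
    exact (N m).add_mem (ha m) (hb m)
  zero_mem' := fun m => by
    rw [PolynomialModule.coeff_zero, Finsupp.zero_apply]
    exact (N m).zero_mem
  smul_mem' := fun c p hp => by
    obtain ⟨c, hc⟩ := c
    show ∀ m, (c • p).coeff m ∈ N m
    change ∀ m, p.coeff m ∈ N m at hp
    unfold RA at hc
    induction hc using Algebra.adjoin_induction generalizing p with
    | mem x hx =>
      obtain ⟨f, hf, rfl⟩ := hx
      intro m
      have e1 : (C f * X : K[X]) = monomial 1 f := by
        rw [← monomial_one_one_eq_X, C_mul_monomial, mul_one]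
      rw [e1, PolynomialModule.monomial_smul_apply]
      split_ifs with h
      · obtain ⟨m, rfl⟩ : ∃ m', m = m' + 1 := ⟨m - 1, by omega⟩
        rw [Nat.add_sub_cancel]
        exact hN m f hf _ (hp m)
      · exact (N m).zero_mem
    | algebraMap r =>
      intro m
      have e1 : (algebraMap k K[X]) r = monomial 0 (algebraMap k K r) := rfl
      rw [e1, PolynomialModule.monomial_smul_apply]
      rw [if_pos (Nat.zero_le m), Nat.sub_zero, algebraMap_smul]
      exact (N m).smul_mem r (hp m)
    | add x y hx hy h1 h2 =>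
      intro m
      rw [add_smul, PolynomialModule.coeff_add, Finsupp.add_apply]
      exact (N m).add_mem (h1 p hp m) (h2 p hp m)
    | mul x y hx hy h1 h2 =>
      intro m
      rw [mul_smul]
      exact h1 _ (h2 p hp) m

theorem mem_til {W : Submodule k K} {N : ℕ → Submodule k V} (hN : Fam W N)
    (p : PolynomialModule K V) : p ∈ til hN ↔ ∀ m, p.coeff m ∈ N m := Iff.rfl

theorem single_mem_til {W : Submodule k K} {N : ℕ → Submodule k V} (hN : Fam W N)
    {m : ℕ} {v : V} : PolynomialModule.single K m v ∈ til hN ↔ v ∈ N m := by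
  rw [mem_til]
  simp only [PolynomialModule.coeff_single]
  constructor
  · intro h
    have := h m
    rwa [Finsupp.single_eq_same] at this
  · intro h n
    by_cases hn : n = m
    · subst hn
      rwa [Finsupp.single_eq_same]
    · rw [Finsupp.single_eq_of_ne hn]
      exact (N n).zero_mem

theorem til_fg {W : Submodule k K} {M : ℕ → Submodule k V}
    (hM : IsTorsionFreeSheaf W M) (hF : Fam W M) : (til hF).FG := by
  classical
  obtain ⟨m₀, hm₀⟩ := hM.coherent
  have hfin : ∀ m, ∃ S : Finset V, Submodule.span k (S : Set V) = M m := fun m => by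
    have := hM.finite m
    exact Module.Finite.iff_fg.mp this
  choose S hS using hfin
  refine ⟨(Finset.range (m₀ + 1)).biUnion fun m => (S m).image (PolynomialModule.single K m), ?_⟩
  apply le_antisymm
  · rw [Submodule.span_le]
    intro p hp
    rw [Finset.mem_coe, Finset.mem_biUnion] at hp
    obtain ⟨m, hm, hp⟩ := hp
    rw [Finset.mem_image] at hp
    obtain ⟨v, hv, rfl⟩ := hp
    rw [SetLike.mem_coe, single_mem_til, ← hS]
    exact Submodule.subset_span hv
  · set G : Submodule (RA W) (PolynomialModule K V) := Submodule.span (RA W)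
      (((Finset.range (m₀ + 1)).biUnion fun m =>
        (S m).image (PolynomialModule.single K m) : Finset _) : Set (PolynomialModule K V)) with hG
    have ksmul : ∀ (a : k) (m : ℕ) (v : V), PolynomialModule.single K m v ∈ G →
        PolynomialModule.single K m (a • v) ∈ G := by
      intro a m v hv
      have := G.smul_mem (algebraMap k (RA W) a) hv
      have e1 : algebraMap k (RA W) a • PolynomialModule.single K m v =
          PolynomialModule.single K m (a • v) := by
        show (algebraMap k K[X] a) • PolynomialModule.single K m v = _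
        have e2 : (algebraMap k K[X]) a = monomial 0 (algebraMap k K a) := rfl
        rw [e2, PolynomialModule.monomial_smul_single, zero_add, algebraMap_smul]
      rwa [e1] at this
    have key : ∀ m, ∀ v ∈ M m, PolynomialModule.single K m v ∈ G := by
      intro m
      induction m with
      | zero =>
        intro v hv
        rw [← hS] at hv
        induction hv using Submodule.span_induction with
        | mem x hx =>
          apply Submodule.subset_span
          rw [Finset.mem_coe, Finset.mem_biUnion]
          exact ⟨0, by simp, Finset.mem_image_of_mem _ hx⟩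
        | zero => rw [PolynomialModule.single_zero]; exact G.zero_mem
        | add x y _ _ h1 h2 => rw [PolynomialModule.single_add]; exact G.add_mem h1 h2
        | smul a x _ h1 => exact ksmul a _ _ h1
      | succ m ih =>
        intro v hv
        by_cases hle : m + 1 ≤ m₀
        · rw [← hS] at hv
          induction hv using Submodule.span_induction with
          | mem x hx =>
            apply Submodule.subset_span
            rw [Finset.mem_coe, Finset.mem_biUnion]
            exact ⟨m + 1, by rw [Finset.mem_range]; omega, Finset.mem_image_of_mem _ hx⟩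
          | zero => rw [PolynomialModule.single_zero]; exact G.zero_mem
          | add x y _ _ h1 h2 => rw [PolynomialModule.single_add]; exact G.add_mem h1 h2
          | smul a x _ h1 => exact ksmul a _ _ h1
        · have hv' := hm₀ m (by omega) hv
          clear hv
          induction hv' using Submodule.span_induction with
          | mem x hx =>
            obtain ⟨f, hf, u, hu, rfl⟩ := hx
            have h1 : (C f * X : K[X]) ∈ RA W := Algebra.subset_adjoin ⟨f, hf, rfl⟩
            have h2 := G.smul_mem (⟨C f * X, h1⟩ : RA W) (ih u hu)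
            have e1 : (⟨C f * X, h1⟩ : RA W) • PolynomialModule.single K m u =
                PolynomialModule.single K (m + 1) (f • u) := by
              show (C f * X : K[X]) • PolynomialModule.single K m u = _
              have e2 : (C f * X : K[X]) = monomial 1 f := by
                rw [← monomial_one_one_eq_X, C_mul_monomial, mul_one]
              rw [e2, PolynomialModule.monomial_smul_single, add_comm]
            rwa [e1] at h2
          | zero => rw [PolynomialModule.single_zero]; exact G.zero_mem
          | add x y _ _ h1 h2 =>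
            rw [PolynomialModule.single_add]
            exact G.add_mem h1 h2
          | smul a x _ h1 => exact ksmul a _ _ h1
    intro p hp
    rw [mem_til] at hp
    have e1 : p = p.coeff.sum (fun m v => PolynomialModule.single K m v) := by
      apply PolynomialModule.coeff_injective
      rw [PolynomialModule.coeff_finsuppSum]
      simp only [PolynomialModule.coeff_single]
      exact (Finsupp.sum_single _).symm
    rw [e1]
    apply Submodule.sum_mem
    intro m _
    exact key m _ (hp m)

/-- Ascending chain condition for subfamilies of a coherent family. -/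
theorem wf_fam {W : Submodule k K} [Module.Finite k W] {M : ℕ → Submodule k V}
    (hM : IsTorsionFreeSheaf W M) :
    WellFounded (fun N₁ N₂ : {N : ℕ → Submodule k V // Fam W N ∧ ∀ m, N m ≤ M m} =>
      (∀ m, N₂.1 m ≤ N₁.1 m) ∧ ∃ m, ¬ N₁.1 m ≤ N₂.1 m) := by
  have hF : Fam W M := hM.smul_mem
  have := RA_noeth W
  have hn : IsNoetherian (RA W) (til hF) := isNoetherian_of_fg_of_noetherian _ (til_fg hM hF)
  have wf : WellFounded ((· > ·) : Submodule (RA W) (til hF) → Submodule (RA W) (til hF) → Prop) :=
    wellFounded_gt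
  let φ : {N : ℕ → Submodule k V // Fam W N ∧ ∀ m, N m ≤ M m} → Submodule (RA W) (til hF) :=
    fun N => (til N.2.1).comap (til hF).subtype
  refine Subrelation.wf ?_ (InvImage.wf φ wf)
  intro N₁ N₂ h
  obtain ⟨h1, m, h2⟩ := h
  show φ N₂ < φ N₁
  refine lt_of_le_not_ge ?_ ?_
  · intro p hp m
    exact h1 m (hp m)
  · intro hle
    apply h2
    intro v hv
    have hvM : v ∈ M m := N₁.2.2 m hv
    have h3 : (⟨PolynomialModule.single K m v, (single_mem_til hF).2 hvM⟩ : til hF) ∈ φ N₁ :=
      (single_mem_til N₁.2.1).2 hv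
    exact (single_mem_til N₂.2.1).1 (hle h3)

omit [IsScalarTower k K V] in
theorem chain_append {W : Submodule k K} {N N₁ N₂ : ℕ → Submodule k V}
    {q : ℕ → Submodule k K} {c : ℕ} {x : V} (hs : Step W N N₁ q c x)
    {l : List ((ℕ → Submodule k K) × ℕ)} (hc : Chain W N₁ N₂ l) :
    Chain W N N₂ (l ++ [(q, c)]) := by
  induction hc with
  | nil => exact Chain.cons Chain.nil hs
  | cons _ hs' ih => exact Chain.cons ih hs'

/-- The annihilator family of `x` modulo `N`. -/
def annF (W : Submodule k K) (N : ℕ → Submodule k V) (c : ℕ) (x : V) (m : ℕ) :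
    Submodule k K where
  carrier := {a | a ∈ W ^ m ∧ a • x ∈ N (m + c)}
  add_mem' := fun {a b} ha hb => ⟨(W ^ m).add_mem ha.1 hb.1, by
    rw [add_smul]
    exact (N _).add_mem ha.2 hb.2⟩
  zero_mem' := ⟨(W ^ m).zero_mem, by
    rw [zero_smul]
    exact (N _).zero_mem⟩
  smul_mem' := fun r a ha => ⟨(W ^ m).smul_mem r ha.1, by
    rw [smul_assoc]
    exact (N _).smul_mem r ha.2⟩

theorem mem_annF {W : Submodule k K} {N : ℕ → Submodule k V} {c : ℕ} {x : V} {m : ℕ} {a : K} :
    a ∈ annF W N c x m ↔ a ∈ W ^ m ∧ a • x ∈ N (m + c) := Iff.rfl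

theorem annF_fam {W : Submodule k K} {N : ℕ → Submodule k V} (hN : Fam W N) (c : ℕ) (x : V) :
    Fam W (annF W N c x) := by
  intro m f hf a ha
  rw [mem_annF] at ha ⊢
  refine ⟨?_, ?_⟩
  · rw [pow_succ', smul_eq_mul]
    exact Submodule.mul_mem_mul hf ha.1
  · rw [smul_assoc]
    have := hN _ f hf _ ha.2
    have e : m + 1 + c = m + c + 1 := by ring
    rw [e]
    exact this

theorem exists_step {W : Submodule k K} [Module.Finite k W] (_h1 : (1 : K) ∈ W)
    {N N' : ℕ → Submodule k V} (hN : Fam W N)
    (hN' : Fam W N') (h : ∀ m, N m ≤ N' m) (hne : ∃ m, ¬ N' m ≤ N m) :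
    ∃ N₁ q c x, Step W N N₁ q c x ∧ Fam W N₁ ∧ (∀ m, N m ≤ N₁ m) ∧ (∀ m, N₁ m ≤ N' m) ∧
      ∃ m, ¬ N₁ m ≤ N m := by
  classical
  -- a maximal annihilator family
  have hself : IsTorsionFreeSheaf (V := K) W (fun m => W ^ m) := isTorsionFreeSheaf_self
  have wf := wf_fam hself
  let Z : Set {N : ℕ → Submodule k K // Fam W N ∧ ∀ m, N m ≤ W ^ m} :=
    {q | ∃ c x, x ∈ N' c ∧ x ∉ N c ∧ q.1 = annF W N c x}
  have hZ : Z.Nonempty := by
    obtain ⟨m, hm⟩ := hne
    rw [SetLike.not_le_iff_exists] at hm
    obtain ⟨x, hx, hx'⟩ := hm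
    exact ⟨⟨annF W N m x, annF_fam hN m x, fun m a ha => ha.1⟩, m, x, hx, hx', rfl⟩
  obtain ⟨⟨q, hqf, hql⟩, ⟨c, x, hx, hx', hq⟩, hmax⟩ := wf.has_min Z hZ
  change q = annF W N c x at hq
  have hprime : HPrime W q := by
    refine ⟨hql, hqf, ?_, ?_⟩
    · rw [hq, mem_annF]
      rintro ⟨-, h2⟩
      rw [one_smul, zero_add] at h2
      exact hx' h2
    · intro m n a b ha hb hab
      by_contra hcon
      push Not at hcon
      obtain ⟨ha', hb'⟩ := hcon
      -- the element `b x`
      have hbx : b • x ∈ N' (n + c) := by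
        have := hN'.pow hb hx
        rwa [add_comm c n] at this
      have hbx' : b • x ∉ N (n + c) := by
        intro hcc
        apply hb'
        rw [hq, mem_annF]
        exact ⟨hb, hcc⟩
      have hbig : ∀ m, q m ≤ annF W N (n + c) (b • x) m := by
        intro m' a' ha'
        rw [hq, mem_annF] at ha'
        rw [mem_annF]
        refine ⟨ha'.1, ?_⟩
        rw [smul_comm]
        have := hN.pow hb ha'.2
        have e : m' + (n + c) = m' + c + n := by ring
        rw [e]
        exact this
      have hnot := hmax ⟨annF W N (n + c) (b • x), annF_fam hN _ _, fun m a ha => ha.1⟩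
        ⟨n + c, b • x, hbx, hbx', rfl⟩
      apply hnot
      refine ⟨hbig, m, ?_⟩
      intro hle
      apply ha'
      apply hle
      rw [mem_annF]
      refine ⟨ha, ?_⟩
      rw [hq, mem_annF] at hab
      rw [← mul_smul, ← add_assoc]
      exact hab.2
  -- the family `N + A x`
  let N₁ : ℕ → Submodule k V := fun m =>
    if m < c then N m else N m ⊔ (W ^ (m - c)).map (((LinearMap.toSpanSingleton K V x)).restrictScalars k)
  have hN₁lt : ∀ m, m < c → N₁ m = N m := fun m hm => if_pos hm
  have hN₁ : ∀ m v, v ∈ N₁ (m + c) ↔ ∃ u ∈ N (m + c), ∃ a ∈ W ^ m, v = u + a • x := by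
    intro m v
    have e : N₁ (m + c) = N (m + c) ⊔
        (W ^ m).map (((LinearMap.toSpanSingleton K V x)).restrictScalars k) := by
      show (if m + c < c then _ else _) = _
      rw [if_neg (by omega), Nat.add_sub_cancel]
    rw [e, Submodule.mem_sup]
    constructor
    · rintro ⟨u, hu, z, hz, rfl⟩
      rw [Submodule.mem_map] at hz
      obtain ⟨a, ha, rfl⟩ := hz
      exact ⟨u, hu, a, ha, rfl⟩
    · rintro ⟨u, hu, a, ha, rfl⟩
      exact ⟨u, hu, a • x, ⟨a, ha, rfl⟩, rfl⟩
  have hge : ∀ m, N m ≤ N₁ m := by
    intro m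
    by_cases hm : m < c
    · rw [hN₁lt m hm]
    · show N m ≤ if m < c then N m else _
      rw [if_neg hm]
      exact le_sup_left
  have hfam : Fam W N₁ := by
    intro m f hf v hv
    by_cases hm : m < c
    · rw [hN₁lt m hm] at hv
      exact hge _ (hN m f hf v hv)
    · obtain ⟨m, rfl⟩ : ∃ m', m = m' + c := ⟨m - c, by omega⟩
      rw [hN₁] at hv
      obtain ⟨u, hu, a, ha, rfl⟩ := hv
      have e : m + c + 1 = m + 1 + c := by ring
      rw [e, hN₁]
      refine ⟨f • u, ?_, f * a, ?_, ?_⟩
      · rw [← e]
        exact hN _ f hf u hu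
      · rw [pow_succ']
        exact Submodule.mul_mem_mul hf ha
      · rw [smul_add, mul_smul]
  refine ⟨N₁, q, c, x, ⟨hprime, ?_, hN₁lt, hN₁⟩, hfam, hge, ?_, c, ?_⟩
  · intro m a
    rw [hq, mem_annF]
  · intro m
    by_cases hm : m < c
    · rw [hN₁lt m hm]
      exact h m
    · obtain ⟨m, rfl⟩ : ∃ m', m = m' + c := ⟨m - c, by omega⟩
      intro v hv
      rw [hN₁] at hv
      obtain ⟨u, hu, a, ha, rfl⟩ := hv
      refine (N' _).add_mem (h _ hu) ?_
      have := hN'.pow ha hx
      rwa [add_comm c m] at this
  · intro hle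
    apply hx'
    apply hle
    have := (hN₁ 0 x).2 ⟨0, (N _).zero_mem, 1, by
      rw [pow_zero]
      exact Submodule.one_le.mp le_rfl, by rw [zero_add, one_smul]⟩
    rwa [zero_add] at this

end LSA

theorem exists_chain {W : Submodule k K} [Module.Finite k W] (h1 : (1 : K) ∈ W)
    {M N N' : ℕ → Submodule k V} (hM : IsTorsionFreeSheaf W M) (hN : Fam W N)
    (hN' : Fam W N') (h : ∀ m, N m ≤ N' m) (h' : ∀ m, N' m ≤ M m) : ∃ l, Chain W N N' l := by
  have wf := LSA.wf_fam hM
  have key : ∀ n : {N : ℕ → Submodule k V // Fam W N ∧ ∀ m, N m ≤ M m},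
      (∀ m, n.1 m ≤ N' m) → ∃ l, Chain W n.1 N' l := by
    intro n
    induction n using wf.induction with
    | h n ih =>
    intro hn
    obtain ⟨n, hnf, hnM⟩ := n
    by_cases hne : ∃ m, ¬ N' m ≤ n m
    · obtain ⟨N₁, q, c, x, hs, hf, hge, hle, hlt⟩ := LSA.exists_step h1 hnf hN' hn hne
      obtain ⟨l, hl⟩ := ih ⟨N₁, hf, fun m => (hle m).trans (h' m)⟩ ⟨hge, hlt⟩ hle
      exact ⟨_, LSA.chain_append hs hl⟩
    · push Not at hne
      have e : n = N' := funext fun m => le_antisymm (hn m) (hne m)
      subst e
      exact ⟨[], Chain.nil⟩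
  exact key ⟨N, hN, fun m => (h m).trans (h' m)⟩ h

theorem LSA.step_finrank {W : Submodule k K} [Module.Finite k W] {N₁ N₂ : ℕ → Submodule k V}
    {q : ℕ → Submodule k K} {c : ℕ} {x : V} (hs : Step W N₁ N₂ q c x) (m : ℕ)
    (hfin : Module.Finite k (N₁ m)) :
    Module.Finite k (N₂ m) ∧
    finrank k (N₂ m) = finrank k (N₁ m) + if c ≤ m then hq W q (m - c) else 0 := by
  by_cases hm : c ≤ m
  · obtain ⟨m, rfl⟩ : ∃ m', m = m' + c := ⟨m - c, by omega⟩
    rw [if_pos hm, Nat.add_sub_cancel]
    have hW : ∀ n, Module.Finite k ↥(W ^ n) := fun n => by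
      have h : W.FG := Module.Finite.iff_fg.mp inferInstance
      exact Module.Finite.iff_fg.mpr (Submodule.FG.pow h n)
    have := hW m
    let φ : K →ₗ[k] V := (LinearMap.toSpanSingleton K V x).restrictScalars k
    have e2 : N₂ (m + c) = N₁ (m + c) ⊔ (W ^ m).map φ := by
      ext v
      rw [hs.mem, Submodule.mem_sup]
      constructor
      · rintro ⟨u, hu, a, ha, rfl⟩
        exact ⟨u, hu, a • x, ⟨a, ha, rfl⟩, rfl⟩
      · rintro ⟨u, hu, z, ⟨a, ha, rfl⟩, rfl⟩
        exact ⟨u, hu, a, ha, rfl⟩
    have hfin2 : Module.Finite k (N₂ (m + c)) := by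
      rw [e2]
      have h1 : (N₁ (m + c)).FG := Module.Finite.iff_fg.mp hfin
      have h2 : ((W ^ m).map φ).FG :=
        Submodule.FG.map _ (Module.Finite.iff_fg.mp (hW m))
      exact Module.Finite.iff_fg.mpr (h1.sup h2)
    refine ⟨hfin2, ?_⟩
    -- the quotient map
    let π : V →ₗ[k] V ⧸ N₁ (m + c) := (N₁ (m + c)).mkQ
    let ψ : ↥(W ^ m) →ₗ[k] V ⧸ N₁ (m + c) := (π ∘ₗ φ) ∘ₗ (W ^ m).subtype
    have hker : LinearMap.ker ψ = (q m).comap (W ^ m).subtype := by
      ext a
      rw [LinearMap.mem_ker, Submodule.mem_comap]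
      show (N₁ (m + c)).mkQ (φ a.1) = 0 ↔ a.1 ∈ q m
      rw [Submodule.mkQ_apply, Submodule.Quotient.mk_eq_zero, hs.mem_q]
      exact ⟨fun h => ⟨a.2, h⟩, fun h => h.2⟩
    have hrange : LinearMap.range ψ = (N₂ (m + c)).map π := by
      ext z
      rw [LinearMap.mem_range, Submodule.mem_map]
      constructor
      · rintro ⟨a, rfl⟩
        exact ⟨φ a.1, by
          rw [e2]
          exact Submodule.mem_sup_right ⟨a.1, a.2, rfl⟩, rfl⟩
      · rintro ⟨v, hv, rfl⟩
        rw [hs.mem] at hv
        obtain ⟨u, hu, a, ha, rfl⟩ := hv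
        refine ⟨⟨a, ha⟩, ?_⟩
        show (N₁ (m + c)).mkQ (a • x) = (N₁ (m + c)).mkQ (u + a • x)
        rw [map_add, (Submodule.Quotient.mk_eq_zero (N₁ (m + c))).2 hu |> (fun h => h : _ → (N₁ (m + c)).mkQ u = 0),
          zero_add]
    have hr1 := LinearMap.finrank_range_add_finrank_ker ψ
    rw [hker, hrange] at hr1
    have hq1 : finrank k ↥((q m).comap (W ^ m).subtype) = finrank k (q m) :=
      (Submodule.comapSubtypeEquivOfLe (hs.prime.le m)).finrank_eq
    rw [hq1] at hr1
    -- the other side
    let π' : ↥(N₂ (m + c)) →ₗ[k] V ⧸ N₁ (m + c) := π ∘ₗ (N₂ (m + c)).subtype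
    have hker' : LinearMap.ker π' = (N₁ (m + c)).comap (N₂ (m + c)).subtype := by
      ext a
      rw [LinearMap.mem_ker, Submodule.mem_comap]
      show (N₁ (m + c)).mkQ a.1 = 0 ↔ _
      rw [Submodule.mkQ_apply, Submodule.Quotient.mk_eq_zero]
      rfl
    have hrange' : LinearMap.range π' = (N₂ (m + c)).map π := by
      rw [LinearMap.range_comp, Submodule.range_subtype]
    have hr2 := LinearMap.finrank_range_add_finrank_ker π'
    rw [hker', hrange'] at hr2
    have hle : N₁ (m + c) ≤ N₂ (m + c) := by
      rw [e2]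
      exact le_sup_left
    have hq2 : finrank k ↥((N₁ (m + c)).comap (N₂ (m + c)).subtype) = finrank k (N₁ (m + c)) :=
      (Submodule.comapSubtypeEquivOfLe hle).finrank_eq
    rw [hq2] at hr2
    unfold hq
    omega
  · rw [if_neg hm, hs.low m (by omega), add_zero]
    exact ⟨hfin, rfl⟩

theorem Chain.finrank_eq {W : Submodule k K} [Module.Finite k W] {N N' : ℕ → Submodule k V}
    {l : List ((ℕ → Submodule k K) × ℕ)} (h : Chain W N N' l)
    (hfin : ∀ m, Module.Finite k (N m)) (m : ℕ) :
    finrank k (N' m) = finrank k (N m) +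
      (l.map fun qc => if qc.2 ≤ m then hq W qc.1 (m - qc.2) else 0).sum := by
  have key : ∀ {N'' : ℕ → Submodule k V} {l : List ((ℕ → Submodule k K) × ℕ)},
      Chain W N N'' l → Module.Finite k (N'' m) ∧ finrank k (N'' m) = finrank k (N m) +
      (l.map fun qc => if qc.2 ≤ m then hq W qc.1 (m - qc.2) else 0).sum := by
    intro N'' l h
    induction h with
    | nil => exact ⟨hfin m, by simp⟩
    | cons _ hs ih =>
      obtain ⟨h1, h2⟩ := LSA.step_finrank hs m ih.1
      refine ⟨h1, ?_⟩
      rw [h2, ih.2, List.map_cons, List.sum_cons]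
      ring
  exact (key h).2

end Pool.Agent.helper97.BG
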